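import Pool.Agent.Lib.MP_675c19_co.Game
import Pool.Agent.Lib.MP_675c19_co.Board

/-! # MP_675c19_co: an infinite transitive avoidance game that is a P1 win, helper20

Board: seven cells (the residues modulo 7) over every rational number.  Lines: any three points over
three different numbers, and certain sets of at least six points over two numbers; the example and
the winning strategy were found with a SAT solver, the strategy is checked by the kernel. -/

set_option autoImplicit false

namespace Pool.Agent.Results.MP_675c19_co.FirstPlayerWin

open Pool.Agent.Lib.MP_675c19_co

/-- There is an avoidance game with an infinite board and finite lines whose automorphism group is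
transitive on the board and in which the first player has a winning strategy. -/
theorem result : ∃ (V : Type) (lines : Set (Set V)), Infinite V ∧ (∀ L ∈ lines, L.Finite) ∧
    IsTransitive lines ∧ IsP1Win lines :=
  ⟨Pt, theLines, inferInstance, theLines_finite, isTransitive_theLines, isP1Win_theLines⟩

end Pool.Agent.Results.MP_675c19_co.FirstPlayerWin
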